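import Pool.Agent.H.MP_96eab8_al.E

namespace Pool.Agent.Results.MP_96eab8_al.No
open Pool.Agent.H.MP_96eab8_al Pool.Agent.H.MP_96eab8_al.Defs Pool.Agent.H.MP_d87fde_al.Defs
open scoped TensorProduct

theorem result : ∃ (ι O : Type) (_ : Fintype ι) (_ : DecidableEq ι) (_ : Ring O)
    (_ : Algebra ℂ O) (_ : StarRing O) (_ : StarModule ℂ O) (u : Matrix ι ι O)
    (Δ : O →⋆ₐ[ℂ] O ⊗[ℂ] O) (P : O),
    IsCMQG u Δ ∧ Connected Δ ∧ Central Δ P ∧ Seen P ∧ Killed u P :=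
  ⟨I4, O, _, _, _, _, _, _, u, D, PP, cmqg, conn, central, ⟨6, rep⟩, kill⟩

end Pool.Agent.Results.MP_96eab8_al.No
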